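import Pool.Agent.W645.WV.Stm

/-! Project WV (helper645), part SCH: Schwartz functions and Bessel potentials. -/

set_option autoImplicit false

open MeasureTheory SchwartzMap
open scoped FourierTransform SchwartzMap RealInnerProductSpace

namespace Pool.Agent.W591.WV

open Pool.Agent.W645.WV

/-- Euclidean space. -/
abbrev EE (n : ℕ) := EuclideanSpace ℝ (Fin n)

/-- The identity, as a continuous linear equivalence. -/
noncomputable def ee (n : ℕ) : EE n ≃L[ℝ] (Fin n → ℝ) :=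
  PiLp.continuousLinearEquiv 2 ℝ (fun _ : Fin n => ℝ)

lemma ee_mp (n : ℕ) : MeasurePreserving (ee n) :=
  PiLp.volume_preserving_ofLp (Fin n)

lemma ee_symm_mp (n : ℕ) : MeasurePreserving (ee n).symm :=
  PiLp.volume_preserving_toLp (Fin n)

lemma ee_emb (n : ℕ) : MeasurableEmbedding (ee n) :=
  (MeasurableEquiv.toLp 2 (Fin n → ℝ)).symm.measurableEmbedding

lemma ee_symm_emb (n : ℕ) : MeasurableEmbedding (ee n).symm :=
  (MeasurableEquiv.toLp 2 (Fin n → ℝ)).measurableEmbedding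

lemma ee_inner {n : ℕ} (v : EE n) (ξ : Fin n → ℝ) :
    ⟪v, (ee n).symm ξ⟫ = ∑ j, (ee n v) j * ξ j := by
  rw [PiLp.inner_apply]
  refine Finset.sum_congr rfl fun j _ => ?_
  rw [RCLike.inner_apply, conj_trivial, mul_comm]
  rfl

lemma ee_norm {n : ℕ} (v : EE n) : ‖v‖ ^ 2 = Q (ee n v) := by
  rw [EuclideanSpace.norm_sq_eq, Q]
  refine Finset.sum_congr rfl fun j _ => ?_
  rw [Real.norm_eq_abs, sq_abs]
  rfl

lemma FT_eq {n : ℕ} (f : (Fin n → ℝ) → ℂ) (ξ : Fin n → ℝ) :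
    FT f ξ = 𝓕 (f ∘ ee n) ((ee n).symm ξ) := by
  rw [Real.fourier_eq', FT, ← (ee_mp n).integral_comp (ee_emb n)]
  refine integral_congr_ae (Filter.Eventually.of_forall fun v => ?_)
  simp only [smul_eq_mul, Function.comp_apply]
  rw [ee_inner]
  congr 2
  push_cast
  ring

lemma IFT_eq {n : ℕ} (g : (Fin n → ℝ) → ℂ) (x : Fin n → ℝ) :
    IFT g x = 𝓕⁻ (g ∘ ee n) ((ee n).symm x) := by
  rw [Real.fourierInv_eq', IFT, ← (ee_mp n).integral_comp (ee_emb n)]
  refine integral_congr_ae (Filter.Eventually.of_forall fun v => ?_)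
  simp only [smul_eq_mul, Function.comp_apply]
  rw [ee_inner, mul_comm]
  congr 2
  push_cast
  simp only [mul_comm (x _ : ℂ)]
  ring

/-- The symbol of the Bessel potential. -/
noncomputable def sy (n : ℕ) (s : ℝ) (ξ : EE n) : ℂ :=
  (((1 + 4 * Real.pi ^ 2 * ‖ξ‖ ^ 2) ^ (s / 2) : ℝ) : ℂ)

lemma sy_tg (n : ℕ) (s : ℝ) : (sy n s).HasTemperateGrowth := by
  have h1 := Function.hasTemperateGrowth_one_add_norm_sq_rpow (EE n) (s / 2)
  have h2 : (fun ξ : EE n => (2 * Real.pi) • ξ).HasTemperateGrowth :=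
    ((2 * Real.pi) • ContinuousLinearMap.id ℝ (EE n)).hasTemperateGrowth
  have h3 := Function.Complex.hasTemperateGrowth_ofReal.comp (h1.comp h2)
  have e : sy n s = Complex.ofReal ∘
      ((fun x : EE n => (1 + ‖x‖ ^ 2) ^ (s / 2)) ∘ fun ξ : EE n => (2 * Real.pi) • ξ) := by
    funext ξ
    simp only [sy, Function.comp_apply]
    congr 3
    rw [norm_smul, mul_pow, Real.norm_eq_abs, sq_abs]
    ring
  rw [e]
  exact h3

theorem sch : S_SCH := by
  intro n u s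
  let v : 𝓢(EE n, ℂ) := compCLMOfContinuousLinearEquiv ℂ (ee n) u
  have hv : ⇑v = u ∘ ee n := rfl
  let G : 𝓢(EE n, ℂ) := smulLeftCLM ℂ (sy n s) (𝓕 v)
  let w : 𝓢(EE n, ℂ) := 𝓕⁻ G
  have hG : ∀ ξ, G ξ = sy n s ξ * (𝓕 v) ξ := fun ξ => by
    change smulLeftCLM ℂ (sy n s) (𝓕 v) ξ = _
    rw [smulLeftCLM_apply_apply (sy_tg n s), smul_eq_mul]
  have hF : FT (⇑u) = (𝓕 v : 𝓢(EE n, ℂ)) ∘ (ee n).symm := by
    funext ξ
    rw [FT_eq, ← hv]
    rfl
  have hJ : J s u = w ∘ (ee n).symm := by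
    funext x
    rw [J, IFT_eq, Function.comp_apply]
    change _ = (𝓕⁻ G : 𝓢(EE n, ℂ)) _
    rw [fourierInv_coe]
    have hh : (fun ξ => (((1 + 4 * Real.pi ^ 2 * Q ξ) ^ (s / 2) : ℝ) : ℂ) * FT (⇑u) ξ) ∘ (ee n) =
        ⇑G := by
      funext ξ
      rw [hG, Function.comp_apply, hF, Function.comp_apply,
        ContinuousLinearEquiv.symm_apply_apply, sy, ee_norm]
    rw [hh]
  refine ⟨?_, ?_, ?_, ?_, ?_, ?_, ?_⟩
  · rw [hJ]
    exact w.continuous.comp (ee n).symm.continuous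
  · rw [hJ]
    exact ((ee_symm_mp n).integrable_comp_emb (ee_symm_emb n)).2 w.integrable
  · rw [hF]
    exact (𝓕 v : 𝓢(EE n, ℂ)).continuous.comp (ee n).symm.continuous
  · rw [hF]
    exact ((ee_symm_mp n).integrable_comp_emb (ee_symm_emb n)).2 (𝓕 v : 𝓢(EE n, ℂ)).integrable
  · refine ⟨‖(𝓕 v : 𝓢(EE n, ℂ)).toBoundedContinuousFunction‖, fun ξ => ?_⟩
    rw [hF]
    exact (𝓕 v : 𝓢(EE n, ℂ)).toBoundedContinuousFunction.norm_coe_le_norm _
  · exact u.integrable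
  · intro ξ
    rw [FT_eq, hJ]
    have e1 : (w ∘ (ee n).symm) ∘ ee n = w := by
      funext x
      simp
    rw [e1]
    change (𝓕 (𝓕⁻ G) : 𝓢(EE n, ℂ)) _ = _
    rw [FourierTransform.fourier_fourierInv_eq, hG, hF, sy, ee_norm, Function.comp_apply,
      ContinuousLinearEquiv.apply_symm_apply]

end Pool.Agent.W591.WV
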